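import Mathlib
import Pool.Agent.Helper34.GD.Types
import Pool.Agent.Helper11.Ro.DetClass
import Pool.Agent.Helper11.Ro.Thm
import Pool.Agent.Helper11.BD.Pair

/-!
# Galois descent of D: the external powers of a class
-/

universe u v w u' w' t

open CategoryTheory Finset

namespace Pool.Agent.Helper47.GD

open Pool.Agent.Helper10 hiding IsAlgAut parityPart
open SmProjVar Pool.Agent.Helper10.GIT
open Pool.Agent.Helper11 Pool.Agent.Helper11.BD
open Pool.Agent.Helper11.Obs (extProd wordClass prodVar prodFst prodProj IsNumTrivial)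

variable {k : Type u} [Field k]

/-- morphisms to a product -/
lemma exists_lift {A T : SmProjVar k} (p : T.toOver ⟶ A.toOver) :
    ∀ {b : ℕ} {V : Fin b → SmProjVar k} (f : ∀ i, T.toOver ⟶ (V i).toOver),
    ∃ g : T.toOver ⟶ (prodVar A V).toOver, g ≫ prodFst A V = p ∧
      ∀ i, g ≫ prodProj A V i = f i := by
  intro b
  induction b with
  | zero =>
    intro V f
    exact ⟨p, Category.comp_id p, fun i => i.elim0⟩
  | succ b ih =>
    intro V f
    obtain ⟨g, hg1, hg2⟩ := ih (V := fun i => V i.castSucc) fun i => f i.castSucc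
    refine ⟨SmProjVar.lift g (f (Fin.last _)), ?_, ?_⟩
    · have h1 : SmProjVar.lift g (f (Fin.last _)) ≫
          (SmProjVar.fst (prodVar A fun i => V i.castSucc) (V (Fin.last _)) ≫
            prodFst A fun i => V i.castSucc) = p := by
        rw [← Category.assoc, SmProjVar.lift_fst, hg1]
      exact h1
    · intro i
      refine Fin.lastCases ?_ (fun i => ?_) i
      · rw [Can.C11.prodProj_last]
        exact SmProjVar.lift_snd _ _
      · rw [Can.C11.prodProj_castSucc]
        have h1 : SmProjVar.lift g (f (Fin.last _)) ≫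
            (SmProjVar.fst (prodVar A fun i => V i.castSucc) (V (Fin.last _)) ≫
              prodProj A (fun i => V i.castSucc) i) = f i.castSucc := by
          rw [← Category.assoc, SmProjVar.lift_fst, hg2]
        exact h1

/-- the dimension of a product -/
lemma dim_prodVar (A : SmProjVar k) : ∀ {b : ℕ} (V : Fin b → SmProjVar k),
    (prodVar A V).dim = A.dim + ∑ i, (V i).dim := by
  intro b
  induction b with
  | zero =>
    intro V
    rw [Fin.sum_univ_zero, Nat.add_zero]
    rfl
  | succ b ih =>
    intro V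
    have h1 : (prodVar A V).dim = (V (Fin.last _)).dim + (prodVar A fun i => V i.castSucc).dim :=
      rfl
    rw [h1, ih, Fin.sum_univ_castSucc]
    omega

lemma sum_modNat {N b : ℕ} (f : Fin b → ℕ) :
    ∑ q : Fin (N * b), f q.modNat = N * ∑ l, f l := by
  have h1 : ∑ q : Fin (N * b), f q.modNat = ∑ p : Fin N × Fin b, f p.2 :=
    Equiv.sum_comp (finProdFinEquiv (m := N) (n := b)).symm (fun p : Fin N × Fin b => f p.2)
  rw [h1, Fintype.sum_prod_type]
  simp

/-- D' -/
theorem dim_prodVar_pow {b : ℕ} (V : Fin b → SmProjVar k) (N : ℕ) :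
    (prodVar (pt k) fun q : Fin (N * b) => V q.modNat).dim = N * (prodVar (pt k) V).dim := by
  have h0 : (pt k).dim = 0 := Ro.power_pt_dim 0
  rw [dim_prodVar, dim_prodVar, h0, Nat.zero_add, Nat.zero_add]
  exact sum_modNat fun l => (V l).dim

end Pool.Agent.Helper47.GD

namespace Pool.Agent.Helper47.GD

open Pool.Agent.Helper10 hiding IsAlgAut parityPart
open SmProjVar Pool.Agent.Helper10.GIT
open Pool.Agent.Helper11 Pool.Agent.Helper11.BD
open Pool.Agent.Helper11.Obs (extProd wordClass prodVar prodFst prodProj IsNumTrivial)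

variable {k : Type u} [Field k] {K : Type v} [Field K] [CharZero K]
  (W : WeilCohomology.{u, v, w} k K)

/-- the external products span the cohomology of a product -/
lemma mem_span_extProd {A : SmProjVar k} {b : ℕ} : ∀ {V : Fin b → SmProjVar k},
    ∀ y : W.H (prodVar A V), y ∈ Submodule.span K {y | ∃ (x : W.H A) (v : ∀ i, W.H (V i)),
      y = extProd W.toCohomologyData x v} := by
  induction b with
  | zero =>
    intro V y
    refine Submodule.subset_span ⟨y, fun i => i.elim0, ?_⟩
    have h1 : W.pull (𝟙 A.toOver) y * (1 : W.H A) = y := by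
      rw [mul_one]
      exact W.pull_id A y
    exact h1.symm
  | succ b ih =>
    intro V y
    let m : TensorProduct K (W.H (prodVar A fun i => V i.castSucc)) (W.H (V (Fin.last b))) →ₗ[K]
        W.H ((prodVar A fun i => V i.castSucc).prod (V (Fin.last b))) :=
      LinearMap.mul' K _ ∘ₗ
        TensorProduct.map (W.pullA (fst (prodVar A fun i => V i.castSucc)
          (V (Fin.last b)))).toLinearMap
          (W.pullA (snd (prodVar A fun i => V i.castSucc) (V (Fin.last b)))).toLinearMap
    have hm : ∀ a b', m (TensorProduct.tmul K a b') =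
        W.pull (fst (prodVar A fun i => V i.castSucc) (V (Fin.last b))) a *
          W.pull (snd (prodVar A fun i => V i.castSucc) (V (Fin.last b))) b' := fun a b' => rfl
    have key : ∀ s, m s ∈ Submodule.span K {y : W.H (prodVar A V) | ∃ (x : W.H A)
        (v : ∀ i, W.H (V i)), y = extProd W.toCohomologyData x v} := by
      intro s
      induction s using TensorProduct.induction_on with
      | zero => rw [map_zero]; exact Submodule.zero_mem _
      | tmul d c =>
        have hd := ih (V := fun i => V i.castSucc) d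
        induction hd using Submodule.span_induction with
        | mem d hd =>
          obtain ⟨x, v, rfl⟩ := hd
          refine Submodule.subset_span ⟨x, Fin.lastCases c v, ?_⟩
          rw [Can.extProd_succ, Fin.lastCases_last]
          simp only [Fin.lastCases_castSucc]
          rfl
        | zero => rw [TensorProduct.zero_tmul, map_zero]; exact Submodule.zero_mem _
        | add d d' _ _ hd hd' =>
          rw [TensorProduct.add_tmul, map_add]
          exact Submodule.add_mem _ hd hd'
        | smul a d _ hd =>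
          rw [← TensorProduct.smul_tmul', map_smul]
          exact Submodule.smul_mem _ _ hd
      | add x y hx hy => rw [map_add]; exact Submodule.add_mem _ hx hy
    obtain ⟨s, hs⟩ := (W.kunneth (prodVar A fun i => V i.castSucc) (V (Fin.last b)) m hm).2 y
    rw [← hs]
    exact key s

lemma smul_extProd {A : SmProjVar k} {b : ℕ} {V : Fin b → SmProjVar k} (a : K) (x : W.H A)
    (v : ∀ i, W.H (V i)) : extProd W.toCohomologyData (a • x) v =
      a • extProd W.toCohomologyData x v := by
  change W.pullA (prodFst A V) (a • x) * _ = a • (W.pullA (prodFst A V) x * _)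
  rw [map_smul, smul_mul_assoc]

/-- the classes `1 × v 0 × ⋯` span -/
lemma mem_span_extProd_one {b : ℕ} {V : Fin b → SmProjVar k} (y : W.H (prodVar (pt k) V)) :
    y ∈ Submodule.span K {y | ∃ v : ∀ i, W.H (V i), y = extProd W.toCohomologyData 1 v} := by
  have h1 : (1 : W.H (pt k)) ≠ 0 := by
    intro h
    apply trL_pt_ne_zero W
    rw [h, map_zero]
  have hy := mem_span_extProd W y
  induction hy using Submodule.span_induction with
  | mem y hy =>
    obtain ⟨x, v, rfl⟩ := hy
    obtain ⟨c, rfl⟩ := Ro.exists_smul_of_dim_zero W (X := pt k) (Ro.power_pt_dim 0) h1 x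
    rw [smul_extProd]
    exact Submodule.smul_mem _ _ (Submodule.subset_span ⟨v, rfl⟩)
  | zero => exact Submodule.zero_mem _
  | add y y' _ _ hy hy' => exact Submodule.add_mem _ hy hy'
  | smul a y _ hy => exact Submodule.smul_mem _ _ hy

/-- the trace of `1 × v 0 × ⋯` -/
lemma trL_extProd_one {b : ℕ} {V : Fin b → SmProjVar k} (v : ∀ i, W.H (V i)) :
    W.trL (prodVar (pt k) V) (extProd W.toCohomologyData 1 v) =
      W.trL (pt k) 1 * ∏ i, W.trL (V i) (v i) := Can.tr_extProd W 1 v

lemma extProd_one_eq_prod {b : ℕ} {V : Fin b → SmProjVar k} (v : ∀ i, W.H (V i)) :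
    (extProd W.toCohomologyData (A := pt k) 1 v : W.H (prodVar (pt k) V)) =
      (List.ofFn fun i => W.pull (prodProj (pt k) V i) (v i)).prod := by
  change W.pullA (prodFst (pt k) V) 1 * _ = _
  rw [map_one, one_mul]

variable {b : ℕ} (V : Fin b → SmProjVar k) (r : ℕ)

/-- the power of the product -/
noncomputable abbrev pw : SmProjVar k := prodVar (pt k) fun q : Fin (r * b) => V q.modNat

lemma exists_pr (q : Fin (r * b)) {i : Fin r} {l : Fin b} (hi : q.divNat = i)
    (hl : q.modNat = l) : ∃ f : (pw V r).toOver ⟶ (V l).toOver,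
      ∀ x : Fin r → ∀ l : Fin b, W.H (V l), W.pull f (x i l) =
        W.pull (prodProj (pt k) (fun q : Fin (r * b) => V q.modNat) q) (x q.divNat q.modNat) := by
  subst hi
  subst hl
  exact ⟨_, fun _ => rfl⟩

/-- the projections to the factors of the power -/
lemma exists_projections : ∃ g : Fin r → ((pw V r).toOver ⟶ (prodVar (pt k) V).toOver),
    ∀ x : Fin r → ∀ l : Fin b, W.H (V l),
      (extProd W.toCohomologyData (A := pt k) 1 (fun q => x q.divNat q.modNat) :
        W.H (pw V r)) =
      (List.ofFn fun i => W.pull (g i) (extProd W.toCohomologyData (A := pt k) 1 (x i))).prod := by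
  have hlt : ∀ (i : Fin r) (l : Fin b), (i : ℕ) * b + l < r * b := fun i l =>
    calc (i : ℕ) * b + l < (i + 1) * b := by
          rw [Nat.succ_mul]
          exact Nat.add_lt_add_left l.isLt _
      _ ≤ r * b := Nat.mul_le_mul_right _ i.isLt
  have hd : ∀ (i : Fin r) (l : Fin b), (⟨(i : ℕ) * b + l, hlt i l⟩ : Fin (r * b)).divNat = i := by
    intro i l
    apply Fin.ext
    have hb : 0 < b := l.pos
    simp only [Fin.divNat]
    rw [Nat.mul_comm, Nat.mul_add_div hb, Nat.div_eq_of_lt l.isLt, Nat.add_zero]
  have hm : ∀ (i : Fin r) (l : Fin b), (⟨(i : ℕ) * b + l, hlt i l⟩ : Fin (r * b)).modNat = l := by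
    intro i l
    apply Fin.ext
    simp only [Fin.modNat]
    rw [Nat.mul_comm, Nat.mul_add_mod, Nat.mod_eq_of_lt l.isLt]
  choose π hπ using fun (i : Fin r) (l : Fin b) =>
    exists_pr W V r ⟨(i : ℕ) * b + l, hlt i l⟩ (hd i l) (hm i l)
  choose g hg1 hg2 using fun i : Fin r =>
    exists_lift (prodFst (pt k) fun q : Fin (r * b) => V q.modNat) (π i)
  refine ⟨g, fun x => ?_⟩
  rw [extProd_one_eq_prod, List.ofFn_mul, List.prod_flatten, List.map_ofFn]
  congr 2
  funext i
  change (List.ofFn fun l : Fin b => W.pull (prodProj (pt k) (fun q : Fin (r * b) => V q.modNat)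
    ⟨(i : ℕ) * b + l, hlt i l⟩) (x (⟨(i : ℕ) * b + l, hlt i l⟩ : Fin (r * b)).divNat
      (⟨(i : ℕ) * b + l, hlt i l⟩ : Fin (r * b)).modNat)).prod = _
  have h1 : W.pull (g i) (extProd W.toCohomologyData (A := pt k) 1 (x i)) =
      (List.ofFn fun l : Fin b => W.pull (π i l) (x i l)).prod := by
    have h2 : W.pull (g i) (extProd W.toCohomologyData (A := pt k) 1 (x i)) =
        wordClass W.toCohomologyData (g i ≫ prodFst (pt k) V)
          (fun l => g i ≫ prodProj (pt k) V l) 1 (x i) :=
      (Can.C11.wordClass_comp W (g i) (prodFst (pt k) V) (prodProj (pt k) V) 1 (x i)).symm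
    rw [h2]
    change W.pullA (g i ≫ prodFst (pt k) V) 1 * _ = _
    rw [map_one, one_mul]
    congr 2
    funext l
    change W.pull (g i ≫ prodProj (pt k) V l) (x i l) = _
    rw [hg2]
  rw [h1]
  congr 2
  funext l
  exact (hπ i l x).symm

omit [CharZero K] in
lemma prod_divmod (f : Fin r → Fin b → K) :
    ∏ q : Fin (r * b), f q.divNat q.modNat = ∏ i, ∏ l, f i l := by
  have h1 : ∏ q : Fin (r * b), f q.divNat q.modNat = ∏ p : Fin r × Fin b, f p.1 p.2 :=
    Equiv.prod_comp (finProdFinEquiv (m := r) (n := b)).symm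
      (fun p : Fin r × Fin b => f p.1 p.2)
  rw [h1, Fintype.prod_prod_type]

/-- the trace of a product of pull-backs under the projections -/
lemma trL_prod_pull {g : Fin r → ((pw V r).toOver ⟶ (prodVar (pt k) V).toOver)}
    (hg : ∀ x : Fin r → ∀ l : Fin b, W.H (V l),
      (extProd W.toCohomologyData (A := pt k) 1 (fun q => x q.divNat q.modNat) :
        W.H (pw V r)) =
      (List.ofFn fun i => W.pull (g i) (extProd W.toCohomologyData (A := pt k) 1 (x i))).prod)
    (y : Fin r → W.H (prodVar (pt k) V)) :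
    W.trL (pw V r) (List.ofFn fun i => W.pullA (g i) (y i)).prod =
      W.trL (pt k) 1 * (W.trL (pt k) 1 ^ r)⁻¹ * ∏ i, W.trL (prodVar (pt k) V) (y i) := by
  set t : K := W.trL (pt k) 1 with ht
  have ht0 : t ≠ 0 := trL_pt_ne_zero W
  let M₁ : MultilinearMap K (fun _ : Fin r => W.H (prodVar (pt k) V)) K :=
    (W.trL (pw V r)).compMultilinearMap
      ((MultilinearMap.mkPiAlgebraFin K r (W.H (pw V r))).compLinearMap
        fun i => (W.pullA (g i)).toLinearMap)
  let M₂ : MultilinearMap K (fun _ : Fin r => W.H (prodVar (pt k) V)) K :=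
    (t * (t ^ r)⁻¹) • (MultilinearMap.mkPiAlgebra K (Fin r) K).compLinearMap
      fun _ => W.trL (prodVar (pt k) V)
  have h1 : ∀ y, M₁ y = W.trL (pw V r) (List.ofFn fun i => W.pullA (g i) (y i)).prod := by
    intro y
    rfl
  have h2 : ∀ y, M₂ y = t * (t ^ r)⁻¹ * ∏ i, W.trL (prodVar (pt k) V) (y i) := by
    intro y
    rfl
  have key := Ro.multi_span (K := K) (fun y => M₁ y - M₂ y)
    (fun x a y y' => by
      rw [M₁.map_update_add, M₂.map_update_add]
      ring)
    (fun x a c y => by
      rw [M₁.map_update_smul, M₂.map_update_smul, smul_eq_mul, smul_eq_mul]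
      ring)
    (fun _ : Fin r => {y : W.H (prodVar (pt k) V) | ∃ v : ∀ i, W.H (V i),
      y = extProd W.toCohomologyData 1 v})
    (fun y hy => by
      choose v hv using hy
      obtain rfl : y = fun i => extProd W.toCohomologyData 1 (v i) := funext hv
      rw [h1, h2, sub_eq_zero]
      have h3 := hg v
      have h4 : (List.ofFn fun i => W.pullA (g i)
          (extProd W.toCohomologyData (A := pt k) 1 (v i))).prod =
          (extProd W.toCohomologyData (A := pt k) 1 (fun q => v q.divNat q.modNat) :
            W.H (pw V r)) := h3.symm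
      rw [h4, trL_extProd_one]
      simp only [trL_extProd_one]
      rw [prod_mul_distrib, prod_const, card_univ, Fintype.card_fin, ← ht]
      have h5 := prod_divmod (K := K) r (fun (i : Fin r) (l : Fin b) => W.trL (V l) (v i l))
      rw [h5]
      field_simp)
    y (fun i => mem_span_extProd_one W (y i))
  rw [← h1, ← h2]
  exact sub_eq_zero.mp key

lemma prod_mem_gr {X : SmProjVar k} {d : ℕ} : ∀ {r : ℕ} (f : Fin r → W.H X),
    (∀ i, f i ∈ W.gr X d) → (List.ofFn f).prod ∈ W.gr X (r * d) := by
  intro r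
  induction r with
  | zero =>
    intro f _
    rw [List.ofFn_zero, List.prod_nil, Nat.zero_mul]
    exact (W.graded X).one_mem
  | succ r ih =>
    intro f hf
    rw [List.ofFn_succ, List.prod_cons, Nat.succ_mul, Nat.add_comm]
    exact (W.graded X).mul_mem _ _ _ _ (hf 0) (ih _ fun i => hf i.succ)

/-- the product of a numerically trivial class and of an algebraic class -/
lemma nt_mul {X : SmProjVar k} {a c : W.H X} (ha : IsNumTrivial W.toCohomologyData X a)
    (hc : c ∈ W.algClasses X) : IsNumTrivial W.toCohomologyData X (a * c) := by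
  refine ⟨W.mul_mem_algClasses _ _ ha.1 _ hc, fun y hy => ?_⟩
  change W.trL X (a * c * y) = 0
  rw [mul_assoc]
  exact ha.2 _ (W.mul_mem_algClasses _ _ hc _ hy)

lemma mul_nt {X : SmProjVar k} {a c : W.H X} (ha : IsNumTrivial W.toCohomologyData X a)
    (hc : c ∈ W.algClasses X) : IsNumTrivial W.toCohomologyData X (c * a) := by
  rw [W.evK_comm X c a (W.algClasses_le_evK _ hc)]
  exact nt_mul W ha hc

/-- the pull-back of a numerically trivial class -/
lemma nt_pull {X Y : SmProjVar k} (f : X.toOver ⟶ Y.toOver) {z : W.H Y}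
    (hz : IsNumTrivial W.toCohomologyData Y z) :
    IsNumTrivial W.toCohomologyData X (W.pullA f z) := by
  refine ⟨W.pull_mem_algClasses _ _ hz.1, fun a ha => ?_⟩
  obtain ⟨y, hy, h3⟩ := W.push_mem_algClasses f _ ha
  change W.trL X (W.pullA f z * a) = 0
  rw [W.evK_comm _ (W.pullA f z) _ (W.pull_evK _ _ (W.algClasses_le_evK _ hz.1)), ← h3,
    W.evK_comm _ y z (W.algClasses_le_evK _ hy)]
  exact hz.2 y hy

lemma nt_prod {X : SmProjVar k} : ∀ {r : ℕ} (f : Fin r → W.H X), (∀ i, f i ∈ W.algClasses X) →
    ∀ i, IsNumTrivial W.toCohomologyData X (f i) →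
      (List.ofFn f).prod ∈ W.algClasses X ∧
        IsNumTrivial W.toCohomologyData X (List.ofFn f).prod := by
  have hone : ∀ X : SmProjVar k, (1 : W.H X) ∈ W.algClasses X := fun X =>
    cycleSpan_le (F := ⊤) W _ (Ro.r5_one_mem W _)
  have halg : ∀ {r : ℕ} (f : Fin r → W.H X), (∀ i, f i ∈ W.algClasses X) →
      (List.ofFn f).prod ∈ W.algClasses X := by
    intro r
    induction r with
    | zero =>
      intro f _
      rw [List.ofFn_zero, List.prod_nil]
      exact hone X
    | succ r ih =>
      intro f hf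
      rw [List.ofFn_succ, List.prod_cons]
      exact W.mul_mem_algClasses _ _ (hf 0) _ (ih _ fun i => hf i.succ)
  intro r
  induction r with
  | zero => exact fun f _ i => i.elim0
  | succ r ih =>
    intro f hf i hi
    refine ⟨halg f hf, ?_⟩
    rw [List.ofFn_succ, List.prod_cons]
    refine Fin.cases (motive := fun i => IsNumTrivial W.toCohomologyData X (f i) →
      IsNumTrivial W.toCohomologyData X (f 0 * (List.ofFn fun i : Fin r => f i.succ).prod))
      (fun h => nt_mul W h (halg _ fun i => hf i.succ))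
      (fun i h => mul_nt W (ih (fun i => f i.succ) (fun i => hf i.succ) i h).2 (hf 0)) i hi

end Pool.Agent.Helper47.GD

namespace Pool.Agent.Helper34.GD

open Pool.Agent.Helper10 hiding IsAlgAut parityPart
open SmProjVar Pool.Agent.Helper10.GIT
open Pool.Agent.Helper11 Pool.Agent.Helper11.BD
open Pool.Agent.Helper11.Obs (extProd wordClass prodVar prodFst prodProj IsNumTrivial)

variable {k : Type u} [Field k] {K : Type v} [Field K] [CharZero K]

/-- D, general form: the external product of several classes -/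
theorem exists_extProducts (W : WeilCohomology.{u, v, w} k K) (F : Subfield K) {b : ℕ}
    (V : Fin b → SmProjVar k) (r j : ℕ) :
    ∃ a : K, a ≠ 0 ∧ ∀ ζ : Fin r → W.H (prodVar (pt k) V),
      (∀ i, ζ i ∈ cycleSpan W.toCohomologyData F (prodVar (pt k) V)) →
      (∀ i, ζ i ∈ W.gr (prodVar (pt k) V) (2 * j)) →
      ∃ Z ∈ cycleSpan W.toCohomologyData F (prodVar (pt k) fun q : Fin (r * b) => V q.modNat),
        Z ∈ W.gr (prodVar (pt k) fun q : Fin (r * b) => V q.modNat) (2 * (r * j)) ∧
        (∀ i, IsNumTrivial W.toCohomologyData _ (ζ i) →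
          IsNumTrivial W.toCohomologyData _ Z) ∧
        ∀ x : Fin r → ∀ l : Fin b, W.H (V l),
          W.trL (prodVar (pt k) fun q : Fin (r * b) => V q.modNat)
            (Z * (extProd W.toCohomologyData (A := pt k) 1 (fun q => x q.divNat q.modNat) :
              W.H (prodVar (pt k) fun q : Fin (r * b) => V q.modNat))) =
          a * ∏ i, W.trL (prodVar (pt k) V)
            (ζ i * (extProd W.toCohomologyData (A := pt k) 1 (x i) : W.H (prodVar (pt k) V))) := by
  obtain ⟨g, hg⟩ := Helper47.GD.exists_projections W V r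
  refine ⟨W.trL (pt k) 1 * (W.trL (pt k) 1 ^ r)⁻¹,
    mul_ne_zero (trL_pt_ne_zero W) (inv_ne_zero (pow_ne_zero _ (trL_pt_ne_zero W))),
    fun ζ hζ hζj => ?_⟩
  have hev : ∀ i, W.pullA (g i) (ζ i) ∈ W.evK (Helper47.GD.pw V r) := fun i =>
    W.pull_evK _ _ (W.gr_le_evK _ (even_two_mul j) (hζj i))
  have hmem : ∀ l : List (W.H (Helper47.GD.pw V r)),
      (∀ x ∈ l, x ∈ cycleSpan W.toCohomologyData F (Helper47.GD.pw V r)) →
      l.prod ∈ cycleSpan W.toCohomologyData F (Helper47.GD.pw V r) := by
    intro l
    induction l with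
    | nil =>
      intro _
      rw [List.prod_nil]
      exact Ro.r5_one_mem W _
    | cons x l ih =>
      intro hl
      rw [List.prod_cons]
      exact mul_mem_cycleSpan W _ (hl x (List.mem_cons_self ..))
        (ih fun y hy => hl y (List.mem_cons_of_mem _ hy))
  refine ⟨(List.ofFn fun i => W.pullA (g i) (ζ i)).prod, ?_, ?_, ?_, ?_⟩
  · refine hmem _ fun x hx => ?_
    rw [List.mem_ofFn] at hx
    obtain ⟨i, rfl⟩ := hx
    exact pull_mem_cycleSpan W _ (hζ i)
  · have h1 := Helper47.GD.prod_mem_gr W (X := Helper47.GD.pw V r) (d := 2 * j)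
      (fun i => W.pullA (g i) (ζ i)) fun i => (W.pull_hom (g i)).map_mem _ _ (hζj i)
    have h2 : r * (2 * j) = 2 * (r * j) := by ring
    rw [h2] at h1
    exact h1
  · intro i hi
    exact (Helper47.GD.nt_prod W (fun i => W.pullA (g i) (ζ i))
      (fun i => W.pull_mem_algClasses _ _ (cycleSpan_le (F := F) W _ (hζ i))) i
      (Helper47.GD.nt_pull W (g i) hi)).2
  · intro x
    have h2 : (extProd W.toCohomologyData (A := pt k) 1 (fun q => x q.divNat q.modNat) :
        W.H (Helper47.GD.pw V r)) = (List.ofFn fun i => W.pullA (g i)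
          (extProd W.toCohomologyData (A := pt k) 1 (x i))).prod := hg x
    have h3 := Can.C4.ofFn_mul_central (fun i => W.pullA (g i) (ζ i))
      (fun i => W.pullA (g i) (extProd W.toCohomologyData (A := pt k) 1 (x i)))
      fun i y => W.evK_comm _ _ _ (hev i)
    have h4 := Helper47.GD.trL_prod_pull W V r hg fun i =>
      ζ i * (extProd W.toCohomologyData (A := pt k) 1 (x i) : W.H (prodVar (pt k) V))
    simp only [map_mul] at h4
    rw [h3] at h4
    rw [← h4]
    exact congrArg (fun y => W.trL (Helper47.GD.pw V r)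
      ((List.ofFn fun i => W.pullA (g i) (ζ i)).prod * y)) h2

/-- D: the external powers of a class -/
theorem exists_extPower (W : WeilCohomology.{u, v, w} k K) (F : Subfield K) {b : ℕ}
    (V : Fin b → SmProjVar k) (r j : ℕ) :
    ∃ a : K, a ≠ 0 ∧ ∀ ζ ∈ cycleSpan W.toCohomologyData F (prodVar (pt k) V),
      ζ ∈ W.gr (prodVar (pt k) V) (2 * j) →
      ∃ Z ∈ cycleSpan W.toCohomologyData F (prodVar (pt k) fun q : Fin (r * b) => V q.modNat),
        Z ∈ W.gr (prodVar (pt k) fun q : Fin (r * b) => V q.modNat) (2 * (r * j)) ∧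
        (0 < r → IsNumTrivial W.toCohomologyData _ ζ → IsNumTrivial W.toCohomologyData _ Z) ∧
        ∀ x : Fin r → ∀ l : Fin b, W.H (V l),
          W.trL (prodVar (pt k) fun q : Fin (r * b) => V q.modNat)
            (Z * (extProd W.toCohomologyData (A := pt k) 1 (fun q => x q.divNat q.modNat) :
              W.H (prodVar (pt k) fun q : Fin (r * b) => V q.modNat))) =
          a * ∏ i, W.trL (prodVar (pt k) V)
            (ζ * (extProd W.toCohomologyData (A := pt k) 1 (x i) : W.H (prodVar (pt k) V))) := by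
  obtain ⟨a, ha, h⟩ := exists_extProducts W F V r j
  refine ⟨a, ha, fun ζ hζ hζj => ?_⟩
  obtain ⟨Z, hZ, hZj, hnt, htr⟩ := h (fun _ => ζ) (fun _ => hζ) fun _ => hζj
  exact ⟨Z, hZ, hZj, fun hr hn => hnt ⟨0, hr⟩ hn, htr⟩

end Pool.Agent.Helper34.GD
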